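import Mathlib
import Pool.Agent.N359.EMC.Ratio

/-!
# The Erdős matching conjecture for `r`-uniform hypergraphs, `n ≥ (r + 39/40) (k - 1)`
-/

set_option autoImplicit false

namespace Pool.Agent.Results.MP_1aab60_co.LargeNExact

open Finset Filter Topology

/-- `f n r k`: the largest number of edges of an `r`-uniform hypergraph on `n` vertices which has
no `k` pairwise disjoint edges (for `k ≥ 1` the maximum is over a nonempty bounded set). -/
noncomputable def f (n r k : ℕ) : ℕ :=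
  sSup {c : ℕ | ∃ F : Finset (Finset (Fin n)), F.card = c ∧ (∀ e ∈ F, e.card = r) ∧
    ¬ ∃ M : Finset (Finset (Fin n)), M ⊆ F ∧ M.card = k ∧
      ∀ a ∈ M, ∀ b ∈ M, a ≠ b → Disjoint a b}

/-- `A r k = C(rk-1, r)` -/
def A (r k : ℕ) : ℕ := (r * k - 1).choose r

/-- `B n r k = C(n,r) - C(n-k+1,r)` -/
def B (n r k : ℕ) : ℕ := n.choose r - (n + 1 - k).choose r

theorem f_eq (n r s : ℕ) : f n r (s + 1) = Pool.Agent.W890.SF.mm n r s := by
  unfold f Pool.Agent.W890.SF.mm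
  congr 1
  ext c
  simp only [Set.mem_setOf_eq]
  constructor
  · rintro ⟨F, hc, hr, hM⟩
    refine ⟨F, hc, hr, fun M hMF hd => ?_⟩
    by_contra hcon
    push Not at hcon
    obtain ⟨M', hM', hcard⟩ := Finset.exists_subset_card_eq (show s + 1 ≤ M.card by omega)
    exact hM ⟨M', hM'.trans hMF, hcard, fun a ha b hb hab => hd (hM' ha) (hM' hb) hab⟩
  · rintro ⟨F, hc, hr, hM⟩
    refine ⟨F, hc, hr, ?_⟩
    rintro ⟨M, hMF, hcard, hd⟩
    have := hM M hMF (fun a ha b hb hab => hd a ha b hb hab)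
    omega

/-- (1) For every `r ≥ 2` there is `n0` such that `f(n;r,k) = max{A(r,k), B(n,r,k)}` for all
`n ≥ n0` and all `k ≥ 1` with `n ≥ (r + 39/40) (k-1)` (and then `n ≥ rk-1`, and the maximum is
`B`). (2) For `0 < x < 1/r` outside the interval `1/(r+5/8) < x < 1/(r+2/5)`, and for all
`0 < x < 1/r` if `r ≤ 5`, the equality is true asymptotically: `f(n;r,k) / max{A, B} → 1` for
`k = ⌊x n⌋ + 1`, `n → ∞`. -/
theorem result (r : ℕ) (hr : 2 ≤ r) :
    (∃ n0 : ℕ, ∀ n : ℕ, n0 ≤ n → ∀ k : ℕ, 1 ≤ k → ((r : ℝ) + 39 / 40) * ((k : ℝ) - 1) ≤ n →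
      r * k - 1 ≤ n ∧ A r k ≤ B n r k ∧ f n r k = max (A r k) (B n r k)) ∧
    (∀ x : ℝ, 0 < x → (r : ℝ) * x < 1 →
      (r ≤ 5 ∨ x ≤ 1 / ((r : ℝ) + 5 / 8) ∨ 1 / ((r : ℝ) + 2 / 5) ≤ x) →
      Tendsto (fun n : ℕ => (f n r (⌊x * (n : ℝ)⌋₊ + 1) : ℝ) /
        ((max (A r (⌊x * (n : ℝ)⌋₊ + 1)) (B n r (⌊x * (n : ℝ)⌋₊ + 1)) : ℕ) : ℝ)) atTop (𝓝 1)) := by
  have hr0 : (0 : ℝ) < r := by exact_mod_cast (by omega : 0 < r)
  refine ⟨?_, fun x hx hx1 h => ?_⟩
  · obtain ⟨n0, h0⟩ := Pool.Agent.W890.SF.R2.value Pool.Agent.W890.SF.t_EMC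
      Pool.Agent.W890.SF.t_LOW r hr
    refine ⟨n0, fun n hn k hk hs => ?_⟩
    obtain ⟨s, rfl⟩ : ∃ s, k = s + 1 := ⟨k - 1, by omega⟩
    have hs' : (40 * r + 39) * s ≤ 40 * n := by
      have h1 : (40 * (r : ℝ) + 39) * s ≤ 40 * n := by
        push_cast at hs
        linarith
      exact_mod_cast h1
    obtain ⟨h1, h2, h3⟩ := h0 n hn s hs'
    have hB : B n r (s + 1) = n.choose r - (n - s).choose r := by
      unfold B
      rw [show n + 1 - (s + 1) = n - s by omega]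
    refine ⟨by omega, ?_, ?_⟩
    · rw [hB]
      exact h3
    · rw [f_eq, hB, h2]
      exact (max_eq_right h3).symm
  · have h1 : Pool.Agent.N359.EMC.Rg r x := by
      rcases h with h | h | h
      · exact Or.inl h
      · refine Or.inr (Or.inl ?_)
        rw [le_div_iff₀ (by positivity)] at h
        linarith
      · refine Or.inr (Or.inr ?_)
        rw [div_le_iff₀ (by positivity)] at h
        linarith
    have h2 := Pool.Agent.N359.EMC.ratio r hr x hx hx1 h1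
    refine h2.congr fun n => ?_
    rw [f_eq]
    unfold A B
    rw [show n + 1 - (⌊x * (n : ℝ)⌋₊ + 1) = n - ⌊x * (n : ℝ)⌋₊ by omega, max_comm]

end Pool.Agent.Results.MP_1aab60_co.LargeNExact
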